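import Pool.Agent.K3h48.HM.Stm

/-!
# HM brick NSS: `PSL₂(ℝ)` has no small subgroups
-/

set_option autoImplicit false

open Filter Topology

namespace Pool.Agent.K3h57.HM

open Pool.Agent.K3h48.HM

open scoped Matrix.Norms.Operator

abbrev SL : Type := Matrix.SpecialLinearGroup (Fin 2) ℝ

abbrev MM : Type := Matrix (Fin 2) (Fin 2) ℝ

theorem sq_sub (x : MM) : (x * x - 1) = 2 • (x - 1) + (x - 1) * (x - 1) := by
  noncomm_ring

theorem step_low (x : MM) (hx : ‖x - 1‖ ≤ 1 / 2) : 3 / 2 * ‖x - 1‖ ≤ ‖x * x - 1‖ := by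
  have h1 : (2 : ℝ) • (x - 1) = (x * x - 1) - (x - 1) * (x - 1) := by
    rw [sq_sub, two_smul, two_smul]
    abel
  have h2 := congrArg norm h1
  rw [norm_smul, Real.norm_of_nonneg (by norm_num)] at h2
  have h3 := norm_sub_le (x * x - 1) ((x - 1) * (x - 1))
  have h4 := norm_mul_le (x - 1) (x - 1)
  have h5 := norm_nonneg (x - 1)
  nlinarith

theorem step_up (x : MM) (hx : ‖x - 1‖ ≤ 1 / 2) : ‖x * x - 1‖ ≤ 5 / 4 := by
  have h1 : x * x - 1 = (2 : ℝ) • (x - 1) + (x - 1) * (x - 1) := by
    rw [sq_sub, two_smul, two_smul]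
  have h3 := norm_add_le ((2 : ℝ) • (x - 1)) ((x - 1) * (x - 1))
  rw [norm_smul, Real.norm_of_nonneg (by norm_num)] at h3
  rw [h1]
  have h4 := norm_mul_le (x - 1) (x - 1)
  have h5 := norm_nonneg (x - 1)
  nlinarith

theorem center_cases (z : SL) (hz : z ∈ Subgroup.center SL) :
    (z : MM) = 1 ∨ (z : MM) = -1 := by
  rw [Matrix.SpecialLinearGroup.mem_center_iff] at hz
  obtain ⟨r, hr, hz⟩ := hz
  rw [Fintype.card_fin] at hr
  have h1 : (r - 1) * (r + 1) = 0 := by linear_combination hr
  rcases mul_eq_zero.1 h1 with h2 | h2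
  · left
    rw [← hz, sub_eq_zero.1 h2, map_one]
  · right
    rw [← hz, eq_neg_of_add_eq_zero_left h2, map_neg, map_one]

theorem t_NSS : S_NSS := by
  let V : Set SL := {a | ‖(a : MM) - 1‖ < 1 / 2}
  have hVo : IsOpen V := by
    have hc : Continuous fun a : SL => ‖(a : MM) - 1‖ := by
      have h1 : Continuous fun a : SL => (a : MM) := continuous_subtype_val
      exact (h1.sub continuous_const).norm
    exact isOpen_lt hc continuous_const
  have h1V : (1 : SL) ∈ V := by
    change ‖((1 : SL) : MM) - 1‖ < 1 / 2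
    rw [Matrix.SpecialLinearGroup.coe_one, sub_self, norm_zero]
    norm_num
  refine ⟨(QuotientGroup.mk : SL → PSL) '' V, ?_, ?_⟩
  · apply (QuotientGroup.isOpenMap_coe V hVo).mem_nhds
    exact ⟨1, h1V, rfl⟩
  · intro g hg
    obtain ⟨a, haV, hag⟩ := hg 1
    rw [pow_one] at hag
    have key : ∀ j : ℕ, a ^ 2 ^ j ∈ V := by
      intro j
      induction j with
      | zero => simpa using haV
      | succ j ih =>
        obtain ⟨b, hb⟩ : ∃ b : SL, b = a ^ 2 ^ j := ⟨_, rfl⟩
        have hb2 : a ^ 2 ^ (j + 1) = b * b := by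
          rw [hb, ← pow_add]
          congr 1
          rw [pow_succ]
          ring
        rw [← hb] at ih
        rw [hb2]
        obtain ⟨c, hcV, hcg⟩ := hg (2 ^ (j + 1))
        have h1 : (QuotientGroup.mk c : PSL) = QuotientGroup.mk (b * b) := by
          rw [hcg, ← hb2, QuotientGroup.mk_pow, hag]
        have h2 := QuotientGroup.eq.1 h1
        have h3 : ((b * b : SL) : MM) = (c : MM) * ((c⁻¹ * (b * b) : SL) : MM) := by
          rw [← Matrix.SpecialLinearGroup.coe_mul, mul_inv_cancel_left]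
        have hup := step_up (b : MM) (le_of_lt ih)
        have hcV' : ‖(c : MM) - 1‖ < 1 / 2 := hcV
        change ‖((b * b : SL) : MM) - 1‖ < 1 / 2
        rcases center_cases _ h2 with h4 | h4
        · rw [h3, h4, mul_one]
          exact hcV'
        · exfalso
          rw [h4, mul_neg, mul_one] at h3
          rw [← Matrix.SpecialLinearGroup.coe_mul, h3] at hup
          have h5 : (2 : ℝ) • (1 : MM) = -((-(c : MM)) - 1) - ((c : MM) - 1) := by
            rw [two_smul]
            abel
          have h6 := congrArg norm h5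
          rw [norm_smul, Real.norm_of_nonneg (by norm_num), norm_one] at h6
          have h7 := norm_sub_le (-((-(c : MM)) - 1)) ((c : MM) - 1)
          rw [norm_neg] at h7
          linarith
    have grow : ∀ j : ℕ, (3 / 2) ^ j * ‖(a : MM) - 1‖ ≤ ‖((a ^ 2 ^ j : SL) : MM) - 1‖ := by
      intro j
      induction j with
      | zero => simp
      | succ j ih =>
        have hb2 : a ^ 2 ^ (j + 1) = a ^ 2 ^ j * a ^ 2 ^ j := by
          rw [← pow_add]
          congr 1
          rw [pow_succ]
          ring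
        rw [hb2, Matrix.SpecialLinearGroup.coe_mul]
        have h1 := step_low ((a ^ 2 ^ j : SL) : MM) (le_of_lt (key j))
        rw [pow_succ]
        linarith
    have ha0 : ‖(a : MM) - 1‖ = 0 := by
      by_contra hne
      have hpos : 0 < ‖(a : MM) - 1‖ := lt_of_le_of_ne (norm_nonneg _) (Ne.symm hne)
      obtain ⟨n, hn⟩ := pow_unbounded_of_one_lt (1 / ‖(a : MM) - 1‖) (by norm_num : (1 : ℝ) < 3 / 2)
      rw [div_lt_iff₀ hpos] at hn
      have h1 := grow n
      have h2 : ‖((a ^ 2 ^ n : SL) : MM) - 1‖ < 1 / 2 := key n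
      linarith
    have ha1 : a = 1 := by
      apply Matrix.SpecialLinearGroup.ext
      intro i j
      have := sub_eq_zero.1 (norm_eq_zero.1 ha0)
      rw [this]
      rfl
    rw [← hag, ha1]
    rfl

end Pool.Agent.K3h57.HM
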